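import Mathlib

set_option autoImplicit false

namespace Pool.Agent.H.MP_8011ed_lc

open FirstOrder

/-- Function symbols of the language of Lie `K`-algebras. -/
inductive LieFunc (K : Type) : ℕ → Type
  | zero : LieFunc K 0
  | smul : K → LieFunc K 1
  | add : LieFunc K 2
  | bracket : LieFunc K 2

/-- The language of Lie `K`-algebras, without relation symbols. -/
def lieLang (K : Type) : FirstOrder.Language.{0, 0} := ⟨LieFunc K, fun _ => Empty⟩

/-- Every Lie `K`-algebra is a structure for this language. -/
instance lieStructure (K A : Type) [Field K] [LieRing A] [LieAlgebra K A] :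
    (lieLang K).Structure A where
  funMap := fun f v =>
    match f, v with
    | LieFunc.zero, _ => 0
    | LieFunc.smul c, v => c • v 0
    | LieFunc.add, v => v 0 + v 1
    | LieFunc.bracket, v => ⁅v 0, v 1⁆
  RelMap := fun r _ => Empty.elim r

/-- Tuples have the same complete type iff they are conjugate under an automorphism. -/
def LogHomogeneous (K A : Type) [Field K] [LieRing A] [LieAlgebra K A] : Prop :=
  ∀ (m : ℕ) (a b : Fin m → A),
    (∀ φ : (lieLang K).Formula (Fin m), φ.Realize a ↔ φ.Realize b) ↔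
    ∃ σ : A ≃ₗ⁅K⁆ A, ∀ j, σ (a j) = b j

/-- Two Lie algebras realise the same complete types of finite tuples. -/
def Isotypic (K A B : Type) [Field K] [LieRing A] [LieAlgebra K A] [LieRing B] [LieAlgebra K B] :
    Prop :=
  ∀ n : ℕ,
    (∀ a : Fin n → A, ∃ b : Fin n → B,
      ∀ φ : (lieLang K).Formula (Fin n), φ.Realize a ↔ φ.Realize b) ∧
    (∀ b : Fin n → B, ∃ a : Fin n → A,
      ∀ φ : (lieLang K).Formula (Fin n), φ.Realize a ↔ φ.Realize b)

/-- Lie products of `n` factors, with any bracketing. -/
inductive Pow {A : Type} [LieRing A] : ℕ → A → Prop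
  | one (x : A) : Pow 1 x
  | mul {i j : ℕ} {x y : A} : Pow i x → Pow j y → Pow (i + j) ⁅x, y⁆

/-- nilpotent of class at most `n` -/
def NilClass (n : ℕ) (A : Type) [LieRing A] : Prop := ∀ x : A, Pow (n + 1) x → x = 0

/-- `A` is free on `e` among the Lie `K`-algebras of class at most `n`. -/
def IsFree (K : Type) [Field K] (n : ℕ) (A : Type) [LieRing A] [LieAlgebra K A] {r : ℕ}
    (e : Fin r → A) : Prop :=
  NilClass n A ∧ ∀ (B : Type) [LieRing B] [LieAlgebra K B],
    NilClass n B → ∀ f : Fin r → B, ∃! φ : A →ₗ⁅K⁆ B, ∀ i, φ (e i) = f i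

end Pool.Agent.H.MP_8011ed_lc
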