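import Mathlib
import Pool.Agent.H.MP_8011ed_lc.Defs
import Pool.Agent.Lib.helper21.Local
import Pool.Agent.Lib.helper21.Separ

set_option autoImplicit false

namespace Pool.Agent.H.MP_8011ed_lc

open FirstOrder FirstOrder.Language Submodule Filter

variable {K A : Type} [Field K] [LieRing A] [LieAlgebra K A]

section terms
variable {α : Type}

def tz : (lieLang K).Term α := Term.func LieFunc.zero ![]
def ts (c : K) (t : (lieLang K).Term α) : (lieLang K).Term α := Term.func (LieFunc.smul c) ![t]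
def ta (s t : (lieLang K).Term α) : (lieLang K).Term α := Term.func LieFunc.add ![s, t]
def tm (s t : (lieLang K).Term α) : (lieLang K).Term α := Term.func LieFunc.bracket ![s, t]

@[simp] theorem r_tz (v : α → A) : (tz : (lieLang K).Term α).realize v = 0 := rfl
@[simp] theorem r_ts (v : α → A) (c : K) (t : (lieLang K).Term α) :
    (ts c t).realize v = c • t.realize v := rfl
@[simp] theorem r_ta (v : α → A) (s t : (lieLang K).Term α) :
    (ta s t).realize v = s.realize v + t.realize v := rfl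
@[simp] theorem r_tm (v : α → A) (s t : (lieLang K).Term α) :
    (tm s t).realize v = ⁅s.realize v, t.realize v⁆ := rfl

def tsum : List ((lieLang K).Term α) → (lieLang K).Term α
  | [] => tz
  | t :: l => ta t (tsum l)

theorem r_tsum (v : α → A) (l : List ((lieLang K).Term α)) :
    (tsum l).realize v = (l.map (Term.realize v)).sum := by
  induction l with
  | nil => rfl
  | cons t l ih => simp [tsum, ih]

@[simp] theorem r_tsum' (v : α → A) {n : ℕ} (t : Fin n → (lieLang K).Term α) :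
    (tsum (List.ofFn t)).realize v = ∑ i, (t i).realize v := by
  rw [r_tsum, List.map_ofFn, List.sum_ofFn]; rfl

variable {B : Type} [LieRing B] [LieAlgebra K B]

theorem hom_fun (σ : A →ₗ⁅K⁆ B) {n : ℕ} (g : (lieLang K).Functions n) (v : Fin n → A) :
    σ (Structure.funMap g v) = Structure.funMap g (σ ∘ v) := by
  cases g with
  | zero => exact map_zero σ
  | smul c => exact map_smul σ c _
  | add => exact map_add σ _ _
  | bracket => exact σ.map_lie _ _

theorem hom_realize (σ : A →ₗ⁅K⁆ B) (v : α → A) (t : (lieLang K).Term α) :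
    σ (t.realize v) = t.realize (fun i => σ (v i)) := by
  induction t with
  | var i => rfl
  | func f ts ih => exact (hom_fun σ f _).trans (congrArg _ (funext ih))

end terms

instance : (lieLang K).IsAlgebraic := fun _ => inferInstanceAs (IsEmpty Empty)

def Hg (K A : Type) [Field K] [LieRing A] [LieAlgebra K A] : Prop :=
  ∀ (m : ℕ) (a b : Fin m → A),
    (∀ φ : (lieLang K).Formula (Fin m), φ.Realize a ↔ φ.Realize b) →
    ∃ σ : A ≃ₗ⁅K⁆ A, ∀ j, σ (a j) = b j

theorem Hg.log (h : Hg K A) : LogHomogeneous K A := fun m a b => ⟨h m a b, by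
  rintro ⟨σ, hσ⟩ φ
  have := (Pool.Agent.Lib.helper21.Local.formula_ev (fun _ => σ) (fun _ => σ.bijective)
    (fun _ g => Eventually.of_forall fun _ => hom_fun (σ : A →ₗ⁅K⁆ A) g) φ).exists.choose_spec a
  rw [show σ ∘ a = b from funext hσ] at this
  exact this.symm⟩

theorem lin_case (h0 : ∀ x y : A, ⁅x, y⁆ = 0) : Hg K A := by
  intro m a b h
  have hk : LinearMap.ker (Fintype.linearCombination K a) =
      LinearMap.ker (Fintype.linearCombination K b) := by
    ext c
    have := h (Term.equal (tsum (List.ofFn fun j => ts (c j) (Term.var j))) tz)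
    simpa [Fintype.linearCombination_apply] using this
  let f := ((Fintype.linearCombination K a).quotKerEquivRange.symm.trans
    (Submodule.quotEquivOfEq _ _ hk)).trans (Fintype.linearCombination K b).quotKerEquivRange
  obtain ⟨g, hg⟩ := Submodule.exists_linearEquiv_restrict_eq f
  refine ⟨{ g with map_lie' := fun {x y} => ?_ }, fun j => ?_⟩
  · simp [h0]
  · have h1 : Fintype.linearCombination K a (Pi.single j 1) = a j := by simp
    have h2 := hg ⟨_, LinearMap.mem_range_self _ (Pi.single j 1)⟩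
    simp only [f, LinearEquiv.trans_apply, LinearMap.quotKerEquivRange_symm_apply_image,
      Submodule.mkQ_apply, Submodule.quotEquivOfEq_mk, LinearMap.quotKerEquivRange_apply_mk] at h2
    rw [h1] at h2
    show g (a j) = b j
    rw [← h2]; simp

def br (K A : Type) [Field K] [LieRing A] [LieAlgebra K A] : A →ₗ[K] A →ₗ[K] A :=
  LinearMap.mk₂ K (fun x y => ⁅x, y⁆) add_lie smul_lie lie_add lie_smul

theorem br_apply (x y : A) : br K A x y = ⁅x, y⁆ := rfl

def pw (K A : Type) [Field K] [LieRing A] [LieAlgebra K A] : ℕ → Submodule K A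
  | 0 => ⊤
  | k + 1 => map₂ (br K A) (pw K A k) ⊤

def fl (E : Submodule K A) : ℕ → Submodule K A
  | 0 => E
  | k + 1 => map₂ (br K A) (fl E k) E

theorem fl_le (E : Submodule K A) (k : ℕ) : fl E k ≤ pw K A k := by
  induction k with
  | zero => exact le_top
  | succ k ih => exact map₂_le_map₂ ih le_top

theorem mul_pw1 {k : ℕ} {x y : A} (hx : x ∈ pw K A k) (hy : y ∈ pw K A 1) :
    ⁅x, y⁆ ∈ pw K A (k + 2) := by
  have : pw K A 1 ≤ (pw K A (k + 2)).comap (br K A x) :=
    map₂_le.2 fun u _ v _ => by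
      simp only [Submodule.mem_comap, br_apply]
      rw [leibniz_lie, ← lie_skew u]
      exact add_mem (apply_mem_map₂ (br K A) (apply_mem_map₂ (br K A) hx mem_top) mem_top)
        (neg_mem (apply_mem_map₂ (br K A) (apply_mem_map₂ (br K A) hx mem_top) mem_top))
  exact this hy

theorem pw_le (E : Submodule K A) (hE : ⊤ ≤ E ⊔ pw K A 1) (k : ℕ) :
    pw K A k ≤ fl E k ⊔ pw K A (k + 1) := by
  induction k with
  | zero => exact hE
  | succ k ih =>
    refine map₂_le.2 fun x hx y _ => ?_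
    obtain ⟨x1, h1, x2, h2, rfl⟩ := mem_sup.1 (ih hx)
    obtain ⟨y1, h3, y2, h4, rfl⟩ := mem_sup.1 (hE (mem_top : y ∈ ⊤))
    rw [br_apply, add_lie, lie_add]
    exact add_mem (add_mem (mem_sup_left (apply_mem_map₂ (br K A) h1 h3))
      (mem_sup_right (mul_pw1 (fl_le E k h1) h4)))
      (mem_sup_right (apply_mem_map₂ (br K A) h2 mem_top))

theorem top_le (E : Submodule K A) (hE : ⊤ ≤ E ⊔ pw K A 1) (k : ℕ) :
    ⊤ ≤ (Finset.range k).sup (fl E) ⊔ pw K A k := by
  induction k with
  | zero => exact le_sup_right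
  | succ k ih =>
    rw [Finset.range_add_one, Finset.sup_insert]
    refine ih.trans (sup_le (le_sup_right.trans le_sup_left) ((pw_le E hE k).trans
      (sup_le_sup_right le_sup_left _)))

def ph : List A → A →ₗ[K] A
  | [] => LinearMap.id
  | b :: l => (ph l).comp ((br K A).flip b)

theorem pow_ph (l : List A) {k : ℕ} {x : A} (h : Pow k x) : Pow (k + l.length) (ph (K := K) l x) := by
  induction l generalizing k x with
  | nil => exact h
  | cons b l ih =>
    have := ih (h.mul (.one b))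
    rwa [add_assoc, add_comm 1] at this

theorem pw_bot {N : ℕ} (h : NilClass N A) : pw K A N = ⊥ := by
  have : ∀ k (l : List A), k + l.length = N → pw K A k ≤ LinearMap.ker (ph l) := by
    intro k
    induction k with
    | zero =>
      intro l hl x _
      refine h _ ?_
      have := pow_ph (K := K) l (Pow.one x)
      rwa [show 1 + l.length = N + 1 by omega] at this
    | succ k ih =>
      intro l hl
      exact map₂_le.2 fun x hx y _ => ih (y :: l) (by simp; omega) hx
  exact eq_bot_iff.2 fun x hx => this N [] rfl hx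

theorem term_gen {r : ℕ} (e : Fin r → A)
    (gen : ∀ S : LieSubalgebra K A, (∀ i, e i ∈ S) → ∀ x, x ∈ S) (u : A) :
    ∃ t : (lieLang K).Term (Fin r), t.realize e = u :=
  gen { carrier := {u | ∃ t : (lieLang K).Term (Fin r), t.realize e = u}
        add_mem' := by rintro _ _ ⟨s, rfl⟩ ⟨t, rfl⟩; exact ⟨ta s t, rfl⟩
        zero_mem' := ⟨tz, rfl⟩
        lie_mem' := by rintro _ _ ⟨s, rfl⟩ ⟨t, rfl⟩; exact ⟨tm s t, rfl⟩
        smul_mem' := by rintro c _ ⟨t, rfl⟩; exact ⟨ts c t, rfl⟩ }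
    (fun i => ⟨Term.var i, rfl⟩) u

theorem main {r : ℕ} (e : Fin r → A)
    (gen : ∀ S : LieSubalgebra K A, (∀ i, e i ∈ S) → ∀ x, x ∈ S)
    (endo : ∀ x : Fin r → A, ∃ σ : A →ₗ⁅K⁆ A, ∀ i, σ (e i) = x i)
    {N : ℕ} (nil : pw K A N = ⊥)
    (test : ∀ c d : Fin r → K, ∃ α β γ : A →ₗ[K] K, (∀ i, α (e i) = c i) ∧ (∀ i, β (e i) = d i) ∧
      (∀ u v : A, α ⁅u, v⁆ = 0) ∧ (∀ u v : A, β ⁅u, v⁆ = 0) ∧
      ∀ u v : A, γ ⁅u, v⁆ = α u * β v - α v * β u) : Hg K A := by
  have hp1 : ∀ u v : A, ⁅u, v⁆ ∈ pw K A 1 := fun u v => apply_mem_map₂ (br K A) mem_top mem_top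
  have h1 : ⊤ ≤ span K (Set.range e) ⊔ pw K A 1 := fun x _ =>
    gen { (span K (Set.range e) ⊔ pw K A 1 : Submodule K A) with
        lie_mem' := fun {u v} _ _ => mem_sup_right (hp1 u v) }
      (fun i => mem_sup_left (subset_span ⟨i, rfl⟩)) x
  have hfin : Module.Finite K A := by
    have h2 := top_le _ h1 N
    rw [nil, sup_bot_eq, top_le_iff] at h2
    refine ⟨h2 ▸ fg_finset_sup _ _ fun k _ => ?_⟩
    induction k with
    | zero => exact fg_span (Set.finite_range e)
    | succ k ih => exact FG.map₂ _ (ih (by simp_all; omega)) (fg_span (Set.finite_range e))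
  have hgen : ∀ u : A, ∀ v : A, ∃ y : Fin r → A, ⁅u, v⁆ = ∑ i, ⁅e i, y i⁆ :=
    gen { carrier := {u | ∀ v : A, ∃ y : Fin r → A, ⁅u, v⁆ = ∑ i, ⁅e i, y i⁆}
          add_mem' := fun {s t} hs ht v => by
            obtain ⟨y, hy⟩ := hs v
            obtain ⟨z, hz⟩ := ht v
            exact ⟨y + z, by simp [hy, hz, Finset.sum_add_distrib]⟩
          zero_mem' := fun v => ⟨0, by simp⟩
          lie_mem' := fun {s t} hs ht v => by
            obtain ⟨y, hy⟩ := hs ⁅t, v⁆
            obtain ⟨z, hz⟩ := ht ⁅s, v⁆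
            exact ⟨y - z, by simp [lie_lie, hy, hz, Finset.sum_sub_distrib]⟩
          smul_mem' := fun c s hs v => by
            rw [smul_lie, ← lie_smul]; exact hs _ }
      (fun i v => ⟨Pi.single i v, by
        rw [Finset.sum_eq_single i] <;> simp +contextual⟩)
  have hsum : ∀ w ∈ pw K A 1, ∃ y : Fin r → A, w = ∑ i, ⁅e i, y i⁆ := fun w hw =>
    (map₂_le (r := LinearMap.range (∑ i, (br K A (e i)).comp (LinearMap.proj i))).2
      (fun u _ v _ => by
        obtain ⟨y, hy⟩ := hgen u v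
        exact ⟨y, by simp [br_apply, hy]⟩) hw).imp fun y hy => by simpa [br_apply] using hy.symm
  have hext : ∀ f g : A →ₗ[K] K, (∀ u v : A, f ⁅u, v⁆ = 0) → (∀ u v : A, g ⁅u, v⁆ = 0) →
      (∀ i, f (e i) = g (e i)) → ∀ u, f u = g u := fun f g hf hg h =>
    gen { LinearMap.eqLocus f g with
      lie_mem' := fun {u v} _ _ => (hf u v).trans (hg u v).symm } h
  intro m a b h
  choose t ht using fun j => term_gen e gen (a j)
  let G1 : (lieLang K).Formula (Fin m ⊕ Fin r) := Formula.iInf fun i =>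
    Formula.iAlls (Fin r × Bool) (Term.equal (Term.var (.inl (.inr i)))
      (tsum (List.ofFn fun k => tm (.var (.inr (k, false))) (.var (.inr (k, true)))))).not
  let G2 : (lieLang K).Formula (Fin m ⊕ Fin r) :=
    Formula.iAlls Unit (Formula.iExs (Fin r × Fin 3) ((Term.equal (.var (.inl (.inr ())))
      (tsum (List.ofFn fun k => ta (.var (.inr (k, 0)))
        (tm (.var (.inr (k, 1))) (.var (.inr (k, 2))))))) ⊓
      Formula.iInf fun i => Term.equal (tm (.var (.inl (.inl (.inr i)))) (.var (.inr (i, 0)))) tz))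
  let φ : (lieLang K).Formula (Fin m) := Formula.iExs (Fin r)
    (G1 ⊓ G2 ⊓ Formula.iInf fun j => Term.equal (Term.var (.inl j)) ((t j).relabel .inr))
  have hφ : ∀ c : Fin m → A, φ.Realize c ↔ ∃ x : Fin r → A,
      ((∀ i, ∀ w : Fin r × Bool → A, x i ≠ ∑ k, ⁅w (k, false), w (k, true)⁆) ∧
      (∀ v : Unit → A, ∃ y : Fin r × Fin 3 → A,
        v () = ∑ k, (y (k, 0) + ⁅y (k, 1), y (k, 2)⁆) ∧ ∀ i, ⁅x i, y (i, 0)⁆ = 0)) ∧
        ∀ j, c j = (t j).realize x := by
    intro c
    simp [φ, G1, G2, Formula.realize_iExs, Formula.realize_iAlls, Formula.realize_iInf]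
  obtain ⟨x, ⟨hx0, hx1⟩, hx2⟩ := (hφ b).1 ((h φ).1 ((hφ a).2 ⟨e, ⟨fun i w hw => by
      obtain ⟨α, -, -, h2, -, h3, -⟩ := test (fun _ => 1) 0
      have := congrArg α hw
      simp [h2, h3] at this, fun v => by
      obtain ⟨u, hu, w, hw, hv⟩ := mem_sup.1 (h1 (mem_top : v () ∈ ⊤))
      obtain ⟨c, rfl⟩ := (mem_span_range_iff_exists_fun K).1 hu
      obtain ⟨y, rfl⟩ := hsum w hw
      exact ⟨fun p => ![c p.1 • e p.1, e p.1, y p.1] p.2, by simp [← hv, Finset.sum_add_distrib],
        fun i => by simp⟩⟩, fun j => (ht j).symm⟩))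
  obtain ⟨σ, hσ⟩ := endo x
  have hS : ⊤ ≤ LinearMap.range (σ : A →ₗ[K] A) ⊔ pw K A 1 := by
    by_contra hc
    obtain ⟨f, hf0, hf⟩ := exists_le_ker_of_lt_top _ (lt_top_iff_ne_top.2 (fun h => hc h.ge))
    have hf2 : ∀ u v : A, f ⁅u, v⁆ = 0 := fun u v => hf (mem_sup_right (hp1 u v))
    have h6 : ∀ i, f (x i) = 0 := fun i => hf (mem_sup_left ⟨e i, hσ i⟩)
    refine hf0 (LinearMap.ext fun u => ?_)
    obtain ⟨y, hy, hy2⟩ := hx1 (fun _ => u)
    have h7 : ∀ i, f (y (i, 0)) = 0 := fun i => by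
      have hxi : x i ∉ pw K A 1 := fun hm => by
        obtain ⟨z, hz⟩ := hsum _ hm
        exact hx0 i (fun p => bif p.2 then z p.1 else e p.1) hz
      obtain ⟨g, hg1, hg2⟩ := exists_le_ker_of_notMem hxi
      have hg3 : ∀ u v : A, g ⁅u, v⁆ = 0 := fun u v => hg2 (hp1 u v)
      obtain ⟨α, β, γ, a1, a2, a3, a4, a5⟩ := test (fun i => f (e i)) (fun i => g (e i))
      have := a5 (x i) (y (i, 0))
      rw [hy2, map_zero, hext α f a3 hf2 a1, hext α f a3 hf2 a1, h6, hext β g a4 hg3 a2 (x i)] at this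
      simpa [hg1] using this
    have h5 := congrArg f hy
    simpa [hf2, h7] using h5
  have hsurj : Function.Surjective (σ : A →ₗ[K] A) := by
    have h2 := top_le _ hS N
    rw [nil, sup_bot_eq] at h2
    rw [← LinearMap.range_eq_top, ← top_le_iff]
    refine h2.trans (Finset.sup_le fun k _ => ?_)
    clear * -
    induction k with
    | zero => exact le_rfl
    | succ k ih =>
      refine map₂_le.2 fun u hu v hv => ?_
      obtain ⟨u, rfl⟩ := ih hu
      obtain ⟨v, rfl⟩ := hv
      exact ⟨⁅u, v⁆, σ.map_lie u v⟩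
  refine ⟨LieEquiv.ofBijective σ ⟨LinearMap.injective_iff_surjective.2 hsurj, hsurj⟩, fun j => ?_⟩
  rw [hx2 j, ← ht j]
  refine (hom_realize σ e _).trans ?_
  simp only [hσ]

/-- the Heisenberg algebra -/
def T (K : Type) : Type := K × K × K

instance : AddCommGroup (T K) := inferInstanceAs (AddCommGroup (K × K × K))
instance : Module K (T K) := inferInstanceAs (Module K (K × K × K))

instance : LieRing (T K) where
  bracket x y := (0, 0, x.1 * y.2.1 - y.1 * x.2.1)
  add_lie x y z := Prod.ext (add_zero _).symm (Prod.ext (add_zero _).symm (by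
    show (x.1 + y.1) * z.2.1 - z.1 * (x.2.1 + y.2.1) =
      (x.1 * z.2.1 - z.1 * x.2.1) + (y.1 * z.2.1 - z.1 * y.2.1); ring))
  lie_add x y z := Prod.ext (add_zero _).symm (Prod.ext (add_zero _).symm (by
    show x.1 * (y.2.1 + z.2.1) - (y.1 + z.1) * x.2.1 =
      (x.1 * y.2.1 - y.1 * x.2.1) + (x.1 * z.2.1 - z.1 * x.2.1); ring))
  lie_self x := Prod.ext rfl (Prod.ext rfl (sub_self _))
  leibniz_lie x y z := Prod.ext (add_zero _).symm (Prod.ext (add_zero _).symm (by
    show x.1 * 0 - 0 * x.2.1 = (0 * z.2.1 - z.1 * 0) + (y.1 * 0 - 0 * y.2.1); ring))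

instance : LieAlgebra K (T K) where
  lie_smul c x y := Prod.ext (mul_zero c).symm (Prod.ext (mul_zero c).symm (by
    show x.1 * (c * y.2.1) - c * y.1 * x.2.1 = c * (x.1 * y.2.1 - y.1 * x.2.1); ring))

theorem Pow.pos {B : Type} [LieRing B] {k : ℕ} {x : B} (h : Pow k x) : 0 < k := by
  induction h with
  | one => exact one_pos
  | mul _ _ ih => omega

theorem T_pow {k : ℕ} {x : T K} (h : Pow k x) :
    (2 ≤ k → x.1 = 0 ∧ x.2.1 = 0) ∧ (3 ≤ k → x = 0) := by
  induction h with
  | one => exact ⟨by omega, by omega⟩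
  | @mul i j x y hx hy ih1 ih2 =>
    refine ⟨fun _ => ⟨rfl, rfl⟩, fun h => Prod.ext rfl (Prod.ext rfl ?_)⟩
    show x.1 * y.2.1 - y.1 * x.2.1 = 0
    have := hx.pos
    have := hy.pos
    by_cases hi : 2 ≤ i
    · simp [ih1.1 hi]
    · simp [ih2.1 (by omega)]

theorem Pow.coe (S : LieSubalgebra K A) {k : ℕ} {x : S} (h : Pow k x) : Pow k (x : A) := by
  induction h with
  | one => exact .one _
  | mul _ _ ih1 ih2 => exact .mul ih1 ih2

theorem free_gen {n r : ℕ} {e : Fin r → A} (hf : IsFree K n A e) (S : LieSubalgebra K A)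
    (hS : ∀ i, e i ∈ S) (x : A) : x ∈ S := by
  obtain ⟨g, hg, -⟩ := hf.2 S (fun x hx => Subtype.ext (hf.1 _ (hx.coe S))) (fun i => ⟨e i, hS i⟩)
  have := (hf.2 A hf.1 e).unique (y₁ := S.incl.comp g) (y₂ := LieHom.id)
    (fun i => by simp [hg]) (fun i => rfl)
  have h2 : ((g x : S) : A) = x := DFunLike.congr_fun this x
  exact h2 ▸ (g x).2

theorem free_hg {n r : ℕ} {e : Fin r → A} (hf : IsFree K n A e) : Hg K A := by
  by_cases h2 : 2 ≤ n
  · refine main e (free_gen hf) (fun x => (hf.2 A hf.1 x).exists) (pw_bot hf.1) (fun c d => ?_)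
    obtain ⟨g, hg, -⟩ := hf.2 (T K) (fun x hx => (T_pow hx).2 (by omega)) (fun i => (c i, d i, 0))
    exact ⟨(LinearMap.fst K K _).comp (g : A →ₗ[K] T K),
      (LinearMap.fst K K K).comp ((LinearMap.snd K K _).comp (g : A →ₗ[K] T K)),
      (LinearMap.snd K K K).comp ((LinearMap.snd K K _).comp (g : A →ₗ[K] T K)),
      fun i => congrArg Prod.fst (hg i), fun i => congrArg (fun p => p.2.1) (hg i),
      fun u v => congrArg Prod.fst (g.map_lie u v),
      fun u v => congrArg (fun p => p.2.1) (g.map_lie u v),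
      fun u v => congrArg (fun p => p.2.2) (g.map_lie u v)⟩
  · refine lin_case fun x y => hf.1 _ ?_
    obtain rfl | rfl : n = 0 ∨ n = 1 := by omega
    · exact .one _
    · exact (Pow.one x).mul (.one y)

theorem free_sep {n r : ℕ} {e : Fin r → A} (hf : IsFree K n A e) (B : Type) [LieRing B]
    [LieAlgebra K B] (hB : NilClass n B) (h : Isotypic K A B) : Nonempty (A ≃ₗ⁅K⁆ B) := by
  obtain ⟨b, hb⟩ := (h r).1 e
  obtain ⟨f, hf2, -⟩ := hf.2 B hB b
  refine ⟨LieEquiv.ofBijective f (Pool.Agent.Lib.helper21.Separ.separ e (fun a ha w => ?_) b hb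
    (h (r + 1)).2 f (fun t => ?_))⟩
  · obtain ⟨σ, hσ⟩ := free_hg hf r e a ha
    obtain ⟨t, ht⟩ := term_gen e (free_gen hf) (σ.symm w)
    refine ⟨t, ?_⟩
    have := hom_realize (σ : A →ₗ⁅K⁆ A) e t
    rw [ht] at this
    simpa [hσ] using this.symm
  · rw [hom_realize]; simp only [hf2]

end Pool.Agent.H.MP_8011ed_lc
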